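import Pool.Agent.H74A.VG

set_option autoImplicit false

/-! # Twisted topological zeta functions of hypersurfaces with cones over forms `f(x_0, ..., x_n)` whose
root `-(n + 1) / d` is not given by the log canonical threshold

Let `F` be a polynomial in `N` variables and `e ≥ 1`. The `e`-th twisted topological zeta function of `F`
is `Z^(e) = ∑_i χ_i z_i`, where the `z_i` are the different `e`-th twisted local zeta functions of `F` at
the points of the hypersurface, and the `χ_i` are the Euler characteristics of the (constructible)
sets of the points with the zeta function `z_i`.

We assume that the germs are in the class `VGerm`: each of them becomes, in suitable formal coordinates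
and up to a unit, either a member of the class `𝓢` of iterated suspensions of plane curves (`SusZeta`;
for instance an arbitrary germ in two of the variables), or a form `f(x_0, ..., x_n)` of degree `d`,
`n + 1 ≤ N`, whose germs at points different from the origin are again in the class. In the second
case we ask that the pole is not `-(n + 1) / d`, or that one of the following conditions holds.

* (O) `2 ≤ n < d`, and the points of the projective hypersurface `f = 0` of multiplicity larger than
  `d / (n + 1)` are ordinary singularities; the singularities of smaller multiplicity are arbitrary;
  and `f` is not of the form `(x_0 + l) ^ k g`, with `l` and `g` in `x_1, ..., x_n`, in any linear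
  coordinates.
* (H) The hypersurface has a point of multiplicity `m`, `n d / (n + 1) < m < d`, with a condition on the
  log canonical threshold of the tangent cone; so the log canonical threshold of `f` is smaller
  than `(n + 1) / d`. The singularities at the other points are arbitrary.
* (L) The log canonical threshold of `f` is at least `(n + 1) / d` outside of the origin.
* (R) The form `f` is positive on an open real cone `Ω`, zero on its boundary, with `∫ f ^ (-c)` finite
  over `Ω`, outside of the origin, for `c < (n + 1) / d`.

Then `-(n + 1) / d` is a root of the Bernstein-Sato polynomial of `f` (`form_root`), and for all `e ≥ 1`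
the poles of `Z^(e)` are roots of the Bernstein-Sato polynomial of `F`. By the theorem of Malgrange and
Kashiwara, `exp(2 π i s₀)` is then an eigenvalue of the monodromy of `F` at some point.

The conjecture itself is easier for the pole `-(n + 1) / d` of a cone if the Euler characteristic of
the complement of the projective hypersurface is not zero: then all the `d`-th roots of unity are
eigenvalues (A'Campo). The conditions above do not depend on the Euler characteristic.

For example, the strong form holds for the germs of three variables which become, in formal
coordinates, forms `f(x, y, z)` of degree `d ≥ 3` such that all the points of the curve `f = 0` of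
multiplicity larger than `d / 3` are ordinary, with the exception of `d` concurrent lines and of
`d - 1` concurrent lines and one more line; the germs of `f` outside of the origin are germs in two
variables. -/

namespace Pool.Agent.Results.MP_b22d1f_ag.ConesBeyondLct

open Pool.Agent.H74D
open Pool.Agent.H628R4.TP (IsBFunction)
open Pool.Agent.Y229.RE (trans)

/-- **The twisted monodromy conjecture, in the strong form, for the hypersurfaces with germs in the
class `VGerm`.** Let `F` be a polynomial in `N` variables, let `b` satisfy a functional equation
`b(s) F ^ s = P(s) F ^ (s + 1)`, let `e ≥ 1`, let `s₀` be a complex number, let the `z_i` be the `e`-th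
twisted local topological zeta functions of the germs of `F` at points `p_i`, which are in the class
`VGerm` (for `e` and `s₀`), and let `Z = χ₀ + ∑_i χ_i z_i`, where the `χ`s are integers; the `e`-th twisted
topological zeta function of `F` is of this form. If `s₀` is a pole of `Z`, then `b(s₀) = 0`. -/
theorem result {N : ℕ} (F : MvPolynomial (Fin N) ℂ) (b : Polynomial ℂ) (hb : IsBFunction F b)
    (e : ℕ) (he : 1 ≤ e) (s₀ : ℂ) (l : ℕ) (p : Fin l → Fin N → ℂ) (z : Fin l → RatFunc ℂ)
    (hz : ∀ i, VGerm e s₀ (trans (p i) F : MvPowerSeries (Fin N) ℂ) (z i)) (χ₀ : ℤ)
    (χ : Fin l → ℤ) (Z : RatFunc ℂ) (hZ : Z = (χ₀ : RatFunc ℂ) + ∑ i, (χ i : RatFunc ℂ) * z i)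
    (hs₀ : Z.denom.eval s₀ = 0) : b.eval s₀ = 0 := by
  subst hZ
  exact vgerm_global F b hb e he s₀ l p z hz χ₀ χ hs₀

end Pool.Agent.Results.MP_b22d1f_ag.ConesBeyondLct
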