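import Pool.Agent.H63.VJ.Tw

/-!
# The twisted topological zeta functions of the products of an arbitrary polynomial with a general
form in arbitrary polynomials

Let `P, g_1, …, g_r ∈ ℂ[x_1, …, x_n]` be arbitrary polynomials, `n ≥ 2`, let `m ≥ 3`, and let

`f = P · G(g_1, …, g_r)`,

where `G` is a **general form of degree `m`** (its coefficients are outside of the zeros of a nonzero
polynomial `Γ`). Let `h : Y → ℂ ^ n` be a log resolution of the ideal `P · (g_1, …, g_r)`, with the
divisors `E_i` (`i ∈ J`); let `a'_i` be the order of `P` and `a_i` the order of the ideal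
`(g_1, …, g_r)` along `E_i`, and `k_i = ν_i - 1` the order of the Jacobian determinant of `h`. For general
`G` the strict transform `F` of `{G(g) = 0}` is smooth (or empty) and `F` and the `E_i` have normal
crossings (Bertini), so `h` is a resolution of `f`, with the multiplicities `N_i = a'_i + m a_i` of the
`E_i`, and `N = ν = 1` for `F`. The twisted topological zeta functions are

`Z^(1)(s) = ∑_{S ≠ ∅} χ(E_S° \ F) ∏_{i ∈ S} 1 / (N_i s + ν_i) + ∑_S χ(E_S° ∩ F) / (s + 1) ∏_{i ∈ S} 1 / (N_i s + ν_i)`,

`Z^(e)(s) = ∑_{S ≠ ∅, e | N_i for i ∈ S} χ(E_S° \ F) ∏_{i ∈ S} 1 / (N_i s + ν_i)`, `e ≥ 2`.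

The polynomials `g_j` define a morphism `φ : Y → ℙ ^ (r - 1)`. We assume that `φ` is an immersion at
some point of `E_T°` for the sets `T` of divisors with the same ratio `ν_i / N_i` and with
`e | N_i` which have a common point. This is for instance true, at all points and for all `e`, in the
following case. Let `P` be any polynomial. By Hironaka's theorem there is a log resolution
`Y → ℂ ^ n` of `P` which is the blow-up of an ideal `(b_1, …, b_q)`, such that the inverse image of
`P · (b_1, …, b_q)` has normal crossings. Let `g` consist of the `b_i` and the `x_j b_i`. Then `φ` is an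
embedding, since the blow-up is a subvariety of `ℂ ^ n × ℙ ^ (q - 1)`.

The theorem: every pole of `Z^(e)` is a root of the Bernstein-Sato polynomial `b_f`, of at least the same
order (for poles of order `n` at integers `≤ -2` we obtain only the order `n - 1 ≥ 1` of the root). By
the theorem of Malgrange and Kashiwara, `exp(2 π i s₀)` is an eigenvalue of the monodromy of `f` at some
point for all roots `s₀` of `b_f`. So Q1 has a positive answer for these `f`, for all `e`.

Blanco, Budur and van der Veer (*Monodromy conjecture for log generic polynomials*) have proved the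
monodromy conjecture, with eigenvalues, if `G(g)` is replaced by a generic element of a high power of an
ample linear series on `Y`; here the degree `m` is only at least `3` and the map `φ` need only be an
immersion at one point of each of the relevant strata, and the poles are roots of `b_f`, which was
known only for `N_i` which satisfy a non-resonance condition. The roots are those of the theorem
`MP_504089_ag.GeneralMembers`; the proof is explained there.
-/

set_option autoImplicit false

namespace Pool.Agent.Results.MP_b22d1f_ag.GeneralMembersTwisted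

open Polynomial Pool.Agent.H628R4.TP Pool.Agent.H63.VI Pool.Agent.H63.VJ

/-- **The twisted monodromy conjecture, in the strong form, for `f = P · G(g_1, …, g_r)`, `G` a
general form of degree `m ≥ 3`.**

Let `k i`, `a' i`, `a i` (`i ∈ J`, a finite set) be natural numbers with `N i = a' i + m * a i ≥ 1`, and
`ν i = k i + 1`. There is a nonzero polynomial `Γ` such that for all forms `G` of degree `m` whose
coefficients are not a zero of `Γ`, for every `b ≠ 0` with `IsBFunction f b`
(`b(s) f ^ s = D(s) f ^ (s + 1)` for a differential operator `D(s)` in the Weyl algebra, polynomial in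
`s`; for example `b = b_f`), for every `e` and for all integers `χ S`, `χ' S` with `χ' S = 0` for
`|S| ≥ n`:

assume that the condition `Covered` is satisfied for the sets `S` which contribute to `Z^(e)`
(`chiE e N χ S ≠ 0` or `chiE' e χ' S ≠ 0`), and that `f` is not constant. Then every pole `z` of
`Z^(e) = twisted e N ν χ χ'` is a root of `b`, of at least the same order; the only exception are poles
of order `n` at integers `z ≤ -2`, for which `b` has a root of order at least `n - 1`. In particular
`b(z) = 0` for all the poles `z` of `Z^(e)`. -/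
theorem result {n : ℕ} (hn : 2 ≤ n) {ρ : Type} [Fintype ρ] (P : MvPolynomial (Fin n) ℂ)
    (g : ρ → MvPolynomial (Fin n) ℂ) (m : ℕ) (hm : 3 ≤ m) (J : Type) [Fintype J]
    (k a' a : J → ℕ) (hN : ∀ i, 1 ≤ a' i + m * a i) :
    ∃ Γ : MvPolynomial {ν : ρ →₀ ℕ // ν.degree = m} ℂ, Γ ≠ 0 ∧
      ∀ G : MvPolynomial ρ ℂ, G.IsHomogeneous m →
      MvPolynomial.eval (fun ν => G.coeff ν.1) Γ ≠ 0 →
      (P * MvPolynomial.aeval g G).totalDegree ≠ 0 →
      ∀ b : ℂ[X], IsBFunction (P * MvPolynomial.aeval g G) b → b ≠ 0 →
      ∀ (e : ℕ) (χ χ' : Finset J → ℤ), (∀ S, χ' S ≠ 0 → S.card < n) →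
        Covered P g m k a' a (chiE e (fun i => a' i + m * a i) χ) (chiE' e χ') → ∀ z : ℂ,
        ((twisted e (fun i => a' i + m * a i) (fun i => k i + 1) χ χ').denom.rootMultiplicity z ≤
            b.rootMultiplicity z ∨
          ∃ q : ℕ, 2 ≤ q ∧ z = -(q : ℂ) ∧
            (twisted e (fun i => a' i + m * a i) (fun i => k i + 1)
              χ χ').denom.rootMultiplicity z = n ∧ n ≤ b.rootMultiplicity z + 1) ∧
        ((twisted e (fun i => a' i + m * a i) (fun i => k i + 1) χ χ').denom.eval z = 0 →
          b.eval z = 0) := by
  classical
  choose Γ hΓ hΓ' using fun T : Finset J => exists_gamma P g m hm k a' a hN hn T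
  refine ⟨∏ T, Γ T, Finset.prod_ne_zero_iff.2 fun T _ => hΓ T,
    fun G hG hne hdeg b hb hb0 e χ χ' hχ hcov z => ?_⟩
  rw [map_prod, Finset.prod_ne_zero_iff] at hne
  have key := fun T => hΓ' T G hG (hne T (Finset.mem_univ T)) b hb
  have hχe : ∀ S, chiE' e χ' S ≠ 0 → S.card < n := by
    intro S hS
    unfold chiE' at hS
    split_ifs at hS with h
    · exact hχ S hS
    · exact absurd rfl hS
  have h1 := final P g m k a' a hN G b hb key (chiE e (fun i => a' i + m * a i) χ) (chiE' e χ')
    hχe hcov hdeg hb0 z
  rw [← twisted_eq] at h1
  refine ⟨h1, fun hz => ?_⟩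
  have h2 : 0 < (twisted e (fun i => a' i + m * a i) (fun i => k i + 1)
      χ χ').denom.rootMultiplicity z :=
    (rootMultiplicity_pos (RatFunc.denom_ne_zero _)).2 hz
  refine (rootMultiplicity_pos hb0).1 ?_
  rcases h1 with h1 | ⟨q, -, -, -, h1⟩
  · omega
  · omega

end Pool.Agent.Results.MP_b22d1f_ag.GeneralMembersTwisted
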