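import Pool.Agent.R779.HK.Tup
import Pool.Agent.H59UC.Blk

set_option autoImplicit false

/-! # Twisted topological zeta functions of forms over products of Hankel determinantal ideals

Let `x_0, …, x_{N - 1}` be the coordinates of the affine space. The Hankel matrices `(x_{i + j})` of rank
at most `d` form a closed subset `Σ_d`, `2 d < N`, of dimension `2 d`: the affine cone over the variety of
the `d`-secant `(d - 1)`-planes of the rational normal curve of degree `N - 1`. For `2 p < N` let `I_p`
be the ideal generated by the maximal minors `M_J` (`hankel N p J`) of the `p × (N + 1 - p)` Hankel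
matrix; its zero set is `Σ_{p - 1}`. Let `p t`, `t ∈ T`, be numbers with `2 p t < N`, let the finite
set `T` be divided into blocks, the fibres of `β : T → B`, let

  `J_c = ∏_{t ∈ T, β t = c} I_{p t}`,  `c ∈ B`,

be the product ideals (any products of the ideals `I_p`, as the `p t` need not be different), with
the products of the minors as generators (`blockFam`), let

  `F_c = ∑_J y_{c,J} ∏_{β t = c} M_{t, J t}(x)`

be the general form over `J_c`, where the `y_{c,J}` are further variables, separate for each `c`
(`blockForm`), and let `f = ∏ c, F_c ^ a c` (`powProd`). For blocks with one element this is the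
polynomial of `HankelDeterminantal` in the directory `MP_504089_ag`.

The resolution. Let `P` be the maximum of the `p t`, and let `Y` be obtained from the affine space by
blowing up `Σ_0 = {0}` and the strict transforms of `Σ_1, …, Σ_{P - 1}`, in this order. It is smooth,
the exceptional divisors `E_0, …, E_{P - 1}` cross normally, `ν_d = N - 2 d`, and `I_p` becomes the ideal
of the divisor `∑_{d < p} (p - d) E_d` (Bertram; Thaddeus; Vermeire). So `J_c` becomes the ideal of the
divisor `∑_d (∑_{β t = c} max (p t - d, 0)) E_d`, and locally `F_c` is one of its generators times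
`y_{c,J} + ∑_{i ≠ J} h_i y_{c,i}`, so it is a monomial times a function whose zero locus is smooth;
these zero loci, for the different `c`, cross each other and the `E_d` normally. Hence `Y` times the
space of the `y` is an embedded resolution of `f`, with the components `E_d`, of multiplicity

  `N_d = ∑ c, a c * ∑_{β t = c} max (p t - d, 0)`,

and, for `a c > 0`, the strict transform of `F_c = 0`, with multiplicity `a c` and `ν = 1` (`mul`, `nu`;
in these definitions all `d < (N + 1) / 2` are listed, the `d ≥ P` have the multiplicity `0` and do not
matter).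

The proof: a functional equation of `f` gives one of the product of the powers of the ideals `J_c`;
`E_d` is a Rees divisor of every `I_p` with `p > d`, with an explicit formal chart at a general point
(`Pool.Agent.R779.HK`), hence a Rees divisor of the products (`fromRees_block`), and a residue
computation gives the roots. -/

namespace Pool.Agent.Results.MP_b22d1f_ag.HankelProductsTwisted

open Pool.Agent.H628R4.TP Pool.Agent.TH192.DT Pool.Agent.Y231.RF Pool.Agent.Y228.RR
  Pool.Agent.R779.HK Pool.Agent.H59UC

variable {T B : Type} [Fintype T] [DecidableEq T] [Fintype B] [DecidableEq B]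

/-- The generators `∏_{β t = c} M_{t, J t}` of the product `J_c` of the Hankel determinantal ideals
`I_{p t}`, `β t = c`. -/
noncomputable def gens (N : ℕ) (p : T → ℕ) (β : T → B) (c : B)
    (J : (t : {t : T // β t = c}) → HIdx N (p t.1)) : MvPolynomial (Fin N) ℂ :=
  ∏ t : {t : T // β t = c}, hankel N (p t.1) (J t)

/-- The numbers `ν`: `N - 2 d` for `E_d` and `1` for the strict transforms of the `F_c = 0`. -/
def nu (N : ℕ) (B : Type) : Fin ((N + 1) / 2) ⊕ B → ℕ := Sum.elim (fun d => N - 2 * d) fun _ => 1

/-- The multiplicities of `∏ c, F_c ^ a c`: `∑ c, a c * ∑_{β t = c} (p t - d)` along `E_d`, and `a c`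
along the strict transform of `F_c = 0`. -/
def mul (N : ℕ) (p : T → ℕ) (β : T → B) (a : B → ℕ) : Fin ((N + 1) / 2) ⊕ B → ℕ :=
  Sum.elim (fun d => ∑ c, a c * ∑ t : {t : T // β t = c}, (p t.1 - d)) a

/-- **The monodromy conjecture for the twisted topological zeta functions holds for
`f = ∏ c, F_c ^ a c`**, `F_c` the general form over a product `J_c` of Hankel determinantal ideals in
`N` variables, `2 p t < N`. Every pole `s₀` of the twisted topological zeta function `Z^(e)` of `f`,
for every `e`, computed on the resolution described above (with arbitrary integers `χ` in the place of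
the Euler characteristics of the strata), is a root of every `b` with `b(s) f ^ s = P(s) f ^ (s + 1)`,
in particular of the Bernstein-Sato polynomial of `f`; so by the theorem of Malgrange and Kashiwara
`exp(2 π i s₀)` is an eigenvalue of the monodromy of `f` at some point of `{f = 0}`. -/
theorem result (N : ℕ) (p : T → ℕ) (hp : ∀ t, 2 * p t < N) (β : T → B) (a : B → ℕ)
    (χ : Finset (Fin ((N + 1) / 2) ⊕ B) → ℤ) (e : ℕ) (s₀ : ℂ)
    (hs₀ : (twZ e (nu N B) (mul N p β a) χ).denom.eval s₀ = 0)
    (b : Polynomial ℂ) (hb : IsBFunction (powProd a (gens N p β)) b) : b.eval s₀ = 0 := by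
  have hg : ∀ t, ∃ j, hankel N (p t) j ≠ 0 := fun t => hankel_ne N (p t) (hp t)
  have hnu : nu N B = nuR (fun d : Fin ((N + 1) / 2) => N - 2 * d - 1) B := by
    funext x
    rcases x with d | t
    · have := d.2
      change N - 2 * (d : ℕ) = N - 2 * (d : ℕ) - 1 + 1
      omega
    · rfl
  have hmul : mul N p β a =
      mulR a (fun (d : Fin ((N + 1) / 2)) c => ∑ t : {t : T // β t = c}, (p t.1 - d)) := rfl
  rw [hnu, hmul] at hs₀
  refine tw_global (gens N p β) (blockFam_ne β _ hg) a _ _ χ e (fun d hd _ _ => ?_) s₀ hs₀ b hb
  have h2 := sum_blocks β a fun t => p t - (d : ℕ)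
  rw [h2] at hd ⊢
  exact fromRees_block β
    (fromRees N d p (fun t => a (β t)) hp hd 1 (by rw [map_one]; exact one_ne_zero))

end Pool.Agent.Results.MP_b22d1f_ag.HankelProductsTwisted
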