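import Pool.Agent.R852.FP.Main
import Pool.Agent.TH187.SA.Mult

set_option autoImplicit false

/-! # The twisted topological zeta functions of products of powers of forms over polymatroidal
# ideals of linear subspaces

Let `L s = zeros (c s)`, `s ∈ S`, be proper linear subspaces of the affine space `ℂ ^ σ`, given as the
zeros of linear forms with the coefficients `c s j`. For `t ∈ T` let `U t` be the set of the bases of a
discrete polymatroid on `S` (a finite non-empty set of vectors `u : S → ℕ` with the exchange property
of Herzog and Hibi), let

  `J_t = ∑_{u ∈ U t} ∏_s I(L s) ^ u s`,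

which is generated by the products of the linear forms, `u s` of them from the family of
index `s`, for the `u ∈ U t` (`polyGen`), let

  `F_t = ∑_q y_{t,q} polyGen c (U t) q`

be the general form over `J_t`, where the `y_{t,q}` are further variables, separate for each `t`
(`blockForm`), and let `f = ∏ t, F_t ^ a t` (`powProd`).

For example, if the `L s` are hyperplanes `ℓ_s = 0` and `U t = {u | u s ≤ 1, ∑ s, u s = k t}`, then
`F_t = ∑_A y_{t,A} ∏_{s ∈ A} ℓ_s(x)`, the sum over the sets `A` of `k t` of the hyperplanes. For products of
powers of the ideals `I(L s)`, each `U t` a single vector, see `SubspaceTwisted`.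

Let `𝒢` be the set of all the flats of the `L s` (proper intersections of some of them, `IsFlat`), and
let `Y` be the (maximal) wonderful model of De Concini and Procesi, which is obtained from the affine
space by blowing up the strict transforms of the flats, in the order of the dimension. It is smooth, the
components `E_G`, `G ∈ 𝒢`, cross normally, `E_G, E_{G'}, …` have a common point only if `G, G', …` is a
chain, the multiplicity of the Jacobian determinant along `E_G` is `ν_G - 1` with `ν_G = codim G`, and
the ideal of `L s` becomes the ideal of the divisor `∑ E_G`, over the `G ⊆ L s`. So near a point of `Y`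
the ideal `J_t` is generated by the monomials `∏_G z_G ^ (∑_{s ∈ A_G} u s)`, `u ∈ U t`, where `G` runs over
a chain and `A_G` is the set of the `s` with `G ⊆ L s` (`above`); as the `A_G` form a chain, there is a
`u ∈ U t` for which all the exponents are minimal (greedy algorithm). Hence `J_t` is locally principal,
with the multiplicity `min_{u ∈ U t} ∑_{s ∈ A_G} u s` along `E_G` (`minOn`). Locally `F_t` is one of its
generators times `y_{t,q} + ∑_{i ≠ q} h_i y_{t,i}`, so it is a monomial times a function whose zero locus is
smooth; these zero loci, for the different `t`, cross each other and the `E_G` normally. Hence `Y` times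
the space of the `y` is an embedded resolution of `f`, with the components `E_G`, of multiplicity
`N_G = ∑ t, a t min_{u ∈ U t} ∑_{s ∈ A_G} u s`, and, for `a t > 0`, the strict transform of `F_t = 0`, with
multiplicity `a t` and `ν = 1` (`mulP`, `nuA`).

The general form of the theorem (1) holds for all sets of exponents and all families of subspaces `G`
which are Rees flats (`IsReesP`; an equivalent condition is that `E_G` is a Rees divisor of the product
of the ideals), for instance with a smaller building set, if the `J_t` become locally principal. (2) All
flats are Rees flats, if the `U t` are sums of sets of Veronese type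
`{u | u s ≤ d s, ∑ s, u s = k}`, `0 < d s`, `k < ∑ s, d s` (`IsVeronese`; `d` and `k` may depend
on `t`), or if the indices in `A_G` are linked (`IsLinked`): for each decomposition of `A_G` into two
non-empty parts there are `i`, `j` in the different parts such that some `U t`, `a t ≠ 0`, contains two
elements `m + e_i`, `m + e_j` for which the sum over `A_G` is minimal. So for instance the twisted
conjecture holds for the products of powers of the forms `F_t` over the ideals of `k t`-fold products,
`k t < |S|`, of an arbitrary arrangement of hyperplanes (or of subspaces), for every `e`.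

The proof: a functional equation of `f` gives a functional equation of the product of the ideals,
with the same `b` (`locEq_of_powProd`), and the `E_G` are Rees divisors of this ideal: at a general point
of `E_G`, with the direction `v`, the quotients of the generators `M (ℓ_i) / M (ℓ_j)` for linked `i`, `j`
give all the linear forms on `L i ∩ L j` which vanish at `v` (`Good.cov`); the roots `-(1 + l) / a t` come
from the strict transforms (`strict_root`). -/

namespace Pool.Agent.Results.MP_b22d1f_ag.PolymatroidalTwisted

open Pool.Agent.W574.HS Pool.Agent.H628R4.TP Pool.Agent.TH192.DT Pool.Agent.TH187.SA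
  Pool.Agent.R852.FP

/-- **The twisted monodromy conjecture holds for `f = ∏ t, F_t ^ a t`**, `F_t` the general form over the
polymatroidal ideal `J_t`. (1) Let `G i`, `i ∈ I`, be Rees flats. For every `e`, every
pole `s₀` of the twisted topological zeta function `Z^(e)` of `f`, computed on the resolution
described above (with arbitrary integers `χ` in the place of the Euler characteristics of the
strata), is a root of every polynomial `b` with `b(s) f ^ s = P(s) f ^ (s + 1)`, in particular of
the Bernstein-Sato polynomial of `f`. By the theorem of Malgrange and Kashiwara, `exp(2 π i s₀)` is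
an eigenvalue of the monodromy of `f` at some point. (2) All the flats of the `L s` are Rees flats, if
the sets `U t` of exponents with `a t ≠ 0` are sums of sets of Veronese type
`{u | u s ≤ d s, ∑ s, u s = k}`, `0 < d s`, `k < ∑ s, d s`, or if the indices of the subspaces `L s ⊇ G` are
linked for each flat `G`. -/
theorem result :
    (∀ {σ S T I : Type} [Fintype σ] [DecidableEq σ] [Fintype S] [DecidableEq S] [Fintype T]
      [DecidableEq T] [Fintype I] {κ : S → Type} [∀ s, Fintype (κ s)] [∀ s, DecidableEq (κ s)]
      (c : (s : S) → κ s → σ → ℂ) (_ : ∀ s, ∃ j, c s j ≠ 0) (U : T → Finset (S → ℕ))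
      (_ : ∀ t, (U t).Nonempty) (a : T → ℕ) (G : I → Submodule ℂ (σ → ℂ))
      (_ : ∀ i, IsReesP c U a (G i)) (e : ℕ) (χ : Finset (I ⊕ T) → ℤ) (s₀ : ℂ)
      (_ : (twZ e (nuA G T) (mulP c U a G) χ).denom.eval s₀ = 0)
      (b : Polynomial ℂ) (_ : IsBFunction (powProd a fun t => polyGen c (U t)) b),
      b.eval s₀ = 0) ∧
    ∀ {σ S T : Type} [Fintype σ] [DecidableEq σ] [Fintype S] [DecidableEq S] [Fintype T]
      [DecidableEq T] {κ : S → Type} [∀ s, Fintype (κ s)] [∀ s, DecidableEq (κ s)]
      (c : (s : S) → κ s → σ → ℂ) (_ : ∀ s, ∃ j, c s j ≠ 0) (U : T → Finset (S → ℕ))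
      (_ : ∀ t, (U t).Nonempty) (a : T → ℕ) (G : Submodule ℂ (σ → ℂ)), IsFlat c G →
      (∀ t, a t ≠ 0 → IsVeronese (U t)) ∨ IsLinked U a (above c G) → IsReesP c U a G := by
  refine ⟨?_, ?_⟩
  · intro σ S T I _ _ _ _ _ _ _ κ _ _ c hc U hU a G hG e χ s₀ hs₀ b hb
    obtain ⟨χ', h⟩ := twZ_eq e (nuA G T) (mulP c U a G) χ
    rw [h] at hs₀
    exact root_of_pole _ _ χ' (Pool.Agent.R852.FP.nu_pos G fun i => (hG i).1) b
      (fun x l hl => Pool.Agent.R852.FP.pow_roots c U hU a G hG b
        (powData_global a _ (fun t => polyGen_ne c hc (U t) (hU t)) b hb) x l hl) s₀ hs₀
  · intro σ S T _ _ _ _ _ _ κ _ _ c hc U hU a G hG h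
    exact isReesP_flat c hc U hU a G hG h

end Pool.Agent.Results.MP_b22d1f_ag.PolymatroidalTwisted
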